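import Mathlib
import Pool.Agent.H.MP_7b4824_gt.A

open Set Filter Topology

namespace Pool.Agent.Results.MP_7b4824_gt.NoSuitable

/-- the well-order of type the first uncountable ordinal -/
abbrev Om : Type := (Order.succ Cardinal.aleph0).ord.ToType

/-- the topology generated by the cosets of the subgroups of functions vanishing below `α` -/
def star : TopologicalSpace (Om → ℤ) :=
  TopologicalSpace.generateFrom {U | ∃ (α : Om) (x : Om → ℤ), U = {y | ∀ β < α, y β = x β}}

/-- suitable set -/
def Suitable {H : Type} [AddGroup H] (t : TopologicalSpace H) (S : Set H) : Prop :=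
  @DiscreteTopology S (t.induced Subtype.val) ∧ @IsClosed H t (S ∪ {0}) ∧
    @Dense H t (AddSubgroup.closure S)

theorem result : ∃ H : AddSubgroup (Om → ℤ), (∀ x ∈ H, (Function.support x).Countable) ∧
    ¬ ∃ S : Set H, Suitable (star.induced Subtype.val) S := by
  obtain ⟨G, h1, h2⟩ := Pool.Agent.H.MP_7b4824_gt.main
  refine ⟨G, h1, fun ⟨S, s1, s2, s3⟩ => @h2 (star.induced Subtype.val) (fun x => ?_) S s1
    (union_singleton ▸ s2) s3⟩
  have : (@nhds _ star x.1).HasBasis (fun _ : Om => True) fun a => {y | ∀ c < a, y c = x.1 c} := by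
    refine ⟨fun V => ⟨fun h => ?_, fun ⟨a, _, h⟩ => mem_of_superset (@IsOpen.mem_nhds _ star _ _
      (TopologicalSpace.isOpen_generateFrom_of_mem ⟨a, x.1, rfl⟩) fun _ _ => rfl) h⟩⟩
    have : Nonempty Om := inferInstanceAs (Nonempty (Pool.Agent.Lib.helper24.Succ.W _))
    refine (hasBasis_iInf_principal (s := fun a : Om => {y : Om → ℤ | ∀ c < a, y c = x.1 c})
      (Antitone.directed_ge fun a b h y hy c hc => hy c (hc.trans_le h))).mem_iff.1 (le_trans ?_
        (TopologicalSpace.nhds_generateFrom.ge) h)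
    refine le_iInf₂ ?_
    rintro _ ⟨h, a, z, rfl⟩
    exact iInf_le_of_le a (principal_mono.2 fun y hy c hc => (hy c hc).trans (h c hc))
  exact (@nhds_induced _ _ star Subtype.val x).symm ▸ this.comap _

end Pool.Agent.Results.MP_7b4824_gt.NoSuitable
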